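import Pool.Agent.helper14.SCO.Spec

set_option autoImplicit false

namespace Pool.Agent.SCO

open Pool.Agent.Scheepers

theorem DP2 : DP2_stmt := by
  rintro z ⟨t, l, hz⟩ n
  have h1 : {m | z ∈ F (n, m)} ⊆ ((t.image Prod.snd : Finset ℕ) : Set ℕ) := by
    intro m hm
    obtain ⟨e, he, hpos⟩ := exists_pos_ge (n, m) l
    have h2 := hm e hpos
    rw [hz e he, dlt, decide_eq_false_iff_not, not_not, hpos] at h2
    exact Finset.mem_coe.2 (Finset.mem_image.2 ⟨(n, m), h2, rfl⟩)
  exact (Finset.finite_toSet _).subset h1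

end Pool.Agent.SCO
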