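import Pool.Agent.helper74.SchTop

/-!
# Definitions for the project SCO (MP_bfc607_gt)

Under CH there is a set `X` of irrationals such that `C_p(X)` satisfies `S_1(Gamma_0, Gamma_0)` and `X` satisfies
`S_1(Omega, Omega)`, but `X` fails `S_1(Gamma, Gamma)`.  Conditions are block sequences of patterns, as in
`Pool/Agent/helper74/SchCore.lean`, with another notion of largeness.
-/

set_option autoImplicit false

namespace Pool.Agent.SCO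

open Pool.Agent.Scheepers

/-- The places attached to coordinates below `l`. -/
def Reg (l : ℕ) : Set (ℕ × ℕ) := {w | ∃ e, e < l ∧ pos e = w}

/-- The default pattern with the set `t` of places held at `false`. -/
def dlt (t : Finset (ℕ × ℕ)) : ℕ → Bool := fun e => decide (pos e ∉ t)

/-- `s` below `l`, then `z`. -/
def cat (l : ℕ) (s z : ℕ → Bool) : ℕ → Bool := fun e => if e < l then s e else z e

/-- The countable set of points with a default tail. -/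
def D : Set (ℕ → Bool) := {z | ∃ (t : Finset (ℕ × ℕ)) (l : ℕ), ∀ e, l ≤ e → z e = dlt t e}

/-- `u` is default (for `t`) on the old places, vanishes on the new place `w` and not on the other new places. -/
def Pat (l r : ℕ) (t : Finset (ℕ × ℕ)) (w : ℕ × ℕ) (u : ℕ → Bool) : Prop :=
  (∀ e, l ≤ e → e < r → pos e ∈ Reg l → u e = dlt t e) ∧
  (∀ e, l ≤ e → e < r → pos e = w → u e = false) ∧
  ∀ w' ∈ Reg r, w' ∉ Reg l → w' ≠ w → ∃ e, l ≤ e ∧ e < r ∧ pos e = w' ∧ u e = true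

/-- Large sets of patterns on the block `[l, r)`. -/
def Lg (B : Set (ℕ → Bool)) (l r : ℕ) : Prop :=
  ∀ t : Finset (ℕ × ℕ), (t : Set (ℕ × ℕ)) ⊆ Reg l →
    dlt t ∈ B ∧ ∀ w ∈ Reg r, w ∉ Reg l → ∃ u ∈ B, Pat l r t w u

/-- Conditions. -/
structure Cond where
  a : ℕ → ℕ
  A : ℕ → Set (ℕ → Bool)
  mono : StrictMono a
  loc : ∀ j u v, (∀ e, a j ≤ e → e < a (j + 1) → u e = v e) → u ∈ A j → v ∈ A j
  large : ∃ J, ∀ j, J ≤ j → Lg (A j) (a j) (a (j + 1))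

/-- The elements of a sequence of sets are open and contain `D`. -/
def Nbhd (V : ℕ → Set (ℕ → Bool)) : Prop := ∀ i, IsOpen (V i) ∧ D ⊆ V i

/-- A point which is generic for the sequence `V`. -/
def Gen (V : ℕ → Set (ℕ → Bool)) (z : ℕ → Bool) : Prop := z ∈ P2 ∧ ∀ i, z ∈ V i

namespace Cond

/-- The sigma-compact set of a condition. -/
def star (p : Cond) : Set (ℕ → Bool) := {z | ∃ J, ∀ j, J ≤ j → z ∈ p.A j}

/-- Patterns allowed between two cut points. -/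
def R (p : Cond) (d d' : ℕ) : Set (ℕ → Bool) :=
  {z | ∀ j, d ≤ p.a j → p.a (j + 1) ≤ d' → z ∈ p.A j}

/-- `q` refines `p` from some point on. -/
def le (q p : Cond) : Prop :=
  ∃ M, ∀ i, M ≤ q.a i → q.a i ∈ Set.range p.a ∧ q.A i ⊆ p.R (q.a i) (q.a (i + 1))

/-- The patterns on `[a J, a l)` allowed by `p` and avoiding `W`. -/
def blk (p : Cond) (W : Set (ℕ → Bool)) (J l : ℕ) : Set (ℕ → Bool) :=
  {u | (∀ j, J ≤ j → j < l → u ∈ p.A j) ∧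
    ∀ v : ℕ → Bool, (∀ e, p.a J ≤ e → e < p.a l → v e = u e) → v ∉ W}

theorem exists_block (p : Cond) {J e : ℕ} (he : p.a J ≤ e) :
    ∃ j, J ≤ j ∧ p.a j ≤ e ∧ e < p.a (j + 1) := by
  have hex : ∃ j, e < p.a (j + 1) := ⟨e, lt_of_lt_of_le (Nat.lt_succ_self e) (p.mono.id_le (e + 1))⟩
  classical
  have h1 := Nat.find_spec hex
  have h2 : ∀ m < Nat.find hex, p.a (m + 1) ≤ e := fun m hm => not_lt.1 (Nat.find_min hex hm)
  have hJ : J ≤ Nat.find hex := by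
    by_contra hlt
    push Not at hlt
    have : p.a (Nat.find hex + 1) ≤ p.a J := p.mono.monotone hlt
    omega
  refine ⟨Nat.find hex, hJ, ?_, h1⟩
  rcases Nat.eq_zero_or_pos (Nat.find hex) with h0 | h0
  · have : J = 0 := by omega
    rw [h0]
    rw [this] at he
    exact he
  · have := h2 (Nat.find hex - 1) (by omega)
    rwa [Nat.sub_add_cancel h0] at this

theorem block_unique (p : Cond) {i j e : ℕ} (hi : p.a i ≤ e) (hi' : e < p.a (i + 1))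
    (hj : p.a j ≤ e) (hj' : e < p.a (j + 1)) : i = j := by
  rcases lt_trichotomy i j with h | h | h
  · have : p.a (i + 1) ≤ p.a j := p.mono.monotone h
    omega
  · exact h
  · have : p.a (j + 1) ≤ p.a i := p.mono.monotone h
    omega

theorem R_loc (p : Cond) (d d' : ℕ) (u v : ℕ → Bool) (h : ∀ e, d ≤ e → e < d' → u e = v e)
    (hu : u ∈ p.R d d') : v ∈ p.R d d' := by
  intro j hj hj'
  refine p.loc j u v (fun e he he' => h e (hj.trans he) (lt_of_lt_of_le he' hj')) (hu j hj hj')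

/-- Monotonicity of `R` along the order, between cut points. -/
theorem R_sub {q p : Cond} {M : ℕ}
    (hM : ∀ i, M ≤ q.a i → q.a i ∈ Set.range p.a ∧ q.A i ⊆ p.R (q.a i) (q.a (i + 1)))
    {i i' : ℕ} (hi : M ≤ q.a i) : q.R (q.a i) (q.a i') ⊆ p.R (q.a i) (q.a i') := by
  intro z hz j hj hj'
  obtain ⟨s, hs1, hs2, hs3⟩ := q.exists_block hj
  have hss : M ≤ q.a s := hi.trans (q.mono.monotone hs1)
  obtain ⟨h1, h2⟩ := hM s hss
  have hlt : q.a s < q.a i' := by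
    have : p.a j < p.a (j + 1) := p.mono (Nat.lt_succ_self j)
    omega
  have hs4 : s + 1 ≤ i' := q.mono.lt_iff_lt.1 hlt
  have hs5 : q.a (s + 1) ≤ q.a i' := q.mono.monotone hs4
  have h3 : z ∈ q.A s := hz s (q.mono.monotone hs1) hs5
  refine h2 h3 j hs2 ?_
  have h4 : M ≤ q.a (s + 1) := hss.trans (q.mono.monotone (Nat.le_succ s))
  obtain ⟨⟨m, hm⟩, -⟩ := hM (s + 1) h4
  rw [← hm] at hs3 ⊢
  exact p.mono.monotone (p.mono.lt_iff_lt.1 hs3)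

theorem le_refl (p : Cond) : p.le p :=
  ⟨0, fun i _ => ⟨⟨i, rfl⟩, fun z hz j hj hj' => by
    have h1 : i ≤ j := p.mono.le_iff_le.1 hj
    have h2 : j + 1 ≤ i + 1 := p.mono.le_iff_le.1 hj'
    have : j = i := by omega
    rw [this]; exact hz⟩⟩

theorem le_trans {r q p : Cond} (h1 : r.le q) (h2 : q.le p) : r.le p := by
  obtain ⟨M1, hM1⟩ := h1
  obtain ⟨M2, hM2⟩ := h2
  refine ⟨max M1 M2, fun i hi => ?_⟩
  have hi1 : M1 ≤ r.a i := (le_max_left _ _).trans hi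
  have hi2 : M2 ≤ r.a i := (le_max_right _ _).trans hi
  obtain ⟨⟨s, hs⟩, h3⟩ := hM1 i hi1
  obtain ⟨⟨s', hs'⟩, -⟩ := hM1 (i + 1) (hi1.trans (r.mono.monotone (Nat.le_succ i)))
  constructor
  · rw [← hs]
    exact (hM2 s (by rw [hs]; exact hi2)).1
  · refine h3.trans ?_
    rw [← hs, ← hs']
    exact R_sub hM2 (by rw [hs]; exact hi2)

theorem star_sub {q p : Cond} (h : q.le p) : q.star ⊆ p.star := by
  obtain ⟨M, hM⟩ := h
  rintro z ⟨I, hI⟩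
  let i0 := max I M
  have hi0 : M ≤ q.a i0 := (le_max_right I M).trans (q.mono.id_le i0)
  refine ⟨q.a i0, fun j hj => ?_⟩
  have hj1 : q.a i0 ≤ p.a j := hj.trans (p.mono.id_le j)
  obtain ⟨s, hs1, hs2, hs3⟩ := q.exists_block hj1
  have hss : M ≤ q.a s := hi0.trans (q.mono.monotone hs1)
  obtain ⟨h1, h2⟩ := hM s hss
  refine h2 (hI s ((le_max_left I M).trans hs1)) j hs2 ?_
  have h4 : M ≤ q.a (s + 1) := hss.trans (q.mono.monotone (Nat.le_succ s))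
  obtain ⟨⟨m, hm⟩, -⟩ := hM (s + 1) h4
  rw [← hm] at hs3 ⊢
  exact p.mono.monotone (p.mono.lt_iff_lt.1 hs3)

end Cond

/-! ### the recursion -/

/-- The open set coded by a sequence of codes. -/
def opn (c : ℕ → Code) : Set (ℕ → Bool) := ⋃ j, dec (c j)

/-- Tasks: a matrix of clopen sets, a function, a matrix of open sets. -/
abbrev Tsk := (ℕ → ℕ → Code) × (ℕ → ℕ) × (ℕ → ℕ → ℕ → Code)

/-- States: a point, a condition, a selection. -/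
abbrev Sta := (ℕ → Bool) × Cond × (ℕ → ℕ)

/-- The points `y` such that some `U n (f n)` contains `y` and the finite set `A`. -/
def Vst (U : ℕ → ℕ → Set (ℕ → Bool)) (f : ℕ → ℕ) (A : Finset (ℕ → Bool)) : Set (ℕ → Bool) :=
  {y | ∃ n, (∀ a ∈ A, a ∈ U n (f n)) ∧ y ∈ U n (f n)}

section

variable {ι : Type} (r : ι → ι → Prop) (W : ι → ℕ → ℕ → Set (ℕ → Bool)) (h : ι → ℕ → ℕ)
  (U : ι → ℕ → ℕ → Set (ℕ → Bool))

/-- The points known before stage `i`. -/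
def Old (i : ι) (G : (j : ι) → r j i → Sta) (z : ℕ → Bool) : Prop :=
  z ∈ D ∨ ∃ j hj, z = (G j hj).1

/-- The points known at stage `i`. -/
def Kno (i : ι) (G : (j : ι) → r j i → Sta) (s : Sta) (z : ℕ → Bool) : Prop :=
  Old r i G z ∨ z = s.1

/-- Decreasing conditions. -/
def His (i : ι) (G : (j : ι) → r j i → Sta) : Prop :=
  ∀ j hj j' hj', r j j' → (G j' hj').2.1.le (G j hj).2.1

/-- The requirements of stage `i`. -/
def Stp (i : ι) (G : (j : ι) → r j i → Sta) (s : Sta) : Prop :=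
  (∀ j hj, s.2.1.le (G j hj).2.1) ∧
  (∀ j hj, s.1 ∈ (G j hj).2.1.star) ∧
  s.1 ∈ P2 ∧
  (∀ j hj, ∀ A : Finset (ℕ → Bool), (∀ a ∈ A, Old r i G a) → D ⊆ Vst (U j) (G j hj).2.2 A →
    s.1 ∈ Vst (U j) (G j hj).2.2 A) ∧
  ((∃ z, Kno r i G s z ∧ Kills (W i) z) ∨
    ({n | s.1 ∈ F (n, h i n)}.Infinite ∧
      ∃ κ, (∀ z ∈ s.2.1.star, Ev (W i) κ z) ∧ ∀ z, Kno r i G s z → Ev (W i) κ z)) ∧
  ((∀ n, ∀ A : Finset (ℕ → Bool), (∀ a ∈ A, Kno r i G s a) → ∃ m, ∀ a ∈ A, a ∈ U i n m) →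
    ∀ A : Finset (ℕ → Bool), (∀ a ∈ A, Kno r i G s a) → ∃ n, ∀ a ∈ A, a ∈ U i n (s.2.2 n))

end

/-- The properties of the set in Cantor space. -/
structure Fin1 (X : Set (ℕ → Bool)) : Prop where
  sub : X ⊆ P2
  dsub : D ⊆ X
  unb : ∀ h : ℕ → ℕ, ∃ x ∈ X, {n | x ∈ F (n, h n)}.Infinite
  sel : ∀ (W : ℕ → ℕ → Set (ℕ → Bool)) (b : ℕ → ℕ → ℕ), (∀ n k, Supp (b n k) (W n k)) →
    (∀ n, ∀ x ∈ X, ∃ k0, ∀ k, k0 ≤ k → x ∉ W n k) →
    ∃ κ : ℕ → ℕ, ∀ x ∈ X, ∃ n0, ∀ n, n0 ≤ n → x ∉ W n (κ n)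
  omg : ∀ U : ℕ → ℕ → Set (ℕ → Bool), (∀ n m, IsOpen (U n m)) →
    (∀ n, ∀ A : Finset (ℕ → Bool), (∀ a ∈ A, a ∈ X) → ∃ m, ∀ a ∈ A, a ∈ U n m) →
    ∃ f : ℕ → ℕ, ∀ A : Finset (ℕ → Bool), (∀ a ∈ A, a ∈ X) → ∃ n, ∀ a ∈ A, a ∈ U n (f n)

/-- The final statement for a set `Y` of reals. -/
def Fin2 (Y : Set ℝ) : Prop :=
  Y ⊆ {x : ℝ | Irrational x} ∧
  (∀ A : ℕ → Set C(↥Y, ℝ),
    (∀ n, (A n).Infinite ∧ (A n).Countable ∧ (0 : C(↥Y, ℝ)) ∉ A n ∧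
      ∀ x : ↥Y, ∀ ε : ℝ, 0 < ε → {f ∈ A n | ε ≤ |f x|}.Finite) →
    ∃ g : ℕ → C(↥Y, ℝ), (∀ n, g n ∈ A n) ∧ (Set.range g).Infinite ∧
      ∀ x : ↥Y, ∀ ε : ℝ, 0 < ε → {f ∈ Set.range g | ε ≤ |f x|}.Finite) ∧
  (∀ 𝒰 : ℕ → Set (Set ↥Y),
    (∀ n, (∀ U ∈ 𝒰 n, IsOpen U) ∧ (Set.univ : Set ↥Y) ∉ 𝒰 n ∧ ∀ F : Finset ↥Y, ∃ U ∈ 𝒰 n, (F : Set ↥Y) ⊆ U) →
    ∃ V : ℕ → Set ↥Y, (∀ n, V n ∈ 𝒰 n) ∧ ∀ F : Finset ↥Y, ∃ n, (F : Set ↥Y) ⊆ V n) ∧
  ∃ 𝒰 : ℕ → Set (Set ↥Y),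
    (∀ n, (𝒰 n).Infinite ∧ (∀ U ∈ 𝒰 n, IsOpen U) ∧ (Set.univ : Set ↥Y) ∉ 𝒰 n ∧
      ∀ x : ↥Y, {U ∈ 𝒰 n | x ∉ U}.Finite) ∧
    ∀ V : ℕ → Set ↥Y, (∀ n, V n ∈ 𝒰 n) → ∃ x : ↥Y, {U ∈ Set.range V | x ∉ U}.Infinite

end Pool.Agent.SCO
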