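import Pool.Agent.helper14.SCO.Spec

set_option autoImplicit false

namespace Pool.Agent.SCO

open Pool.Agent.Scheepers

theorem FUS (h1 : MAI_stmt) : FUS_stmt := by
  classical
  intro p W b hW V hV hconv c hc
  obtain ⟨J0, hJ0⟩ := p.large
  -- one step
  have hstep : ∀ i J : ℕ, ∃ kJ : ℕ × ℕ,
      (∀ j, J ≤ j → Lg (p.A j) (p.a j) (p.a (j + 1))) →
      (J < kJ.2 ∧ Lg (p.blk (W i kJ.1) J kJ.2) (p.a J) (p.a kJ.2) ∧ ∀ i', i' ≤ i → c i' ∉ W i kJ.1) := by
    intro i J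
    by_cases hJ : ∀ j, J ≤ j → Lg (p.A j) (p.a j) (p.a (j + 1))
    · obtain ⟨k0, hk0⟩ := h1 p J (W i) (b i) V ⟨hJ, hW i, hV, hconv i⟩
      choose g hg using fun i' => hc i' i
      let k := max k0 ((Finset.range (i + 1)).sup g)
      obtain ⟨l, -, hl1, hl2⟩ := hk0 k (le_max_left _ _) 0
      refine ⟨(k, l), fun _ => ⟨hl1, hl2, fun i' hi' => ?_⟩⟩
      refine hg i' k (?_ : g i' ≤ k)
      exact (Finset.le_sup (f := g) (Finset.mem_range.2 (Nat.lt_succ_of_le hi'))).trans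
        (le_max_right _ _)
    · exact ⟨(0, 0), fun h => absurd h hJ⟩
  choose G hG using hstep
  let S : ℕ → ℕ := fun i => Nat.rec J0 (fun i J => (G i J).2) i
  have hS0 : S 0 = J0 := rfl
  have hSs : ∀ i, S (i + 1) = (G i (S i)).2 := fun i => rfl
  have hSJ : ∀ i, J0 ≤ S i := by
    intro i
    induction i with
    | zero => exact le_rfl
    | succ i ih =>
      rw [hSs]
      exact ih.trans (hG i (S i) (fun j hj => hJ0 j (ih.trans hj))).1.le
  have hSL : ∀ i, ∀ j, S i ≤ j → Lg (p.A j) (p.a j) (p.a (j + 1)) :=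
    fun i j hj => hJ0 j ((hSJ i).trans hj)
  have hSlt : ∀ i, S i < S (i + 1) := fun i => (hG i (S i) (hSL i)).1
  have hSmono : StrictMono S := strictMono_nat_of_lt_succ hSlt
  let κ : ℕ → ℕ := fun i => (G i (S i)).1
  let q : Cond :=
    { a := fun i => p.a (S i)
      A := fun i => p.blk (W i (κ i)) (S i) (S (i + 1))
      mono := p.mono.comp hSmono
      loc := by
        rintro i u v huv ⟨hu1, hu2⟩
        refine ⟨fun j hj hj' => p.loc j u v (fun e he he' => huv e ?_ ?_) (hu1 j hj hj'), ?_⟩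
        · exact (p.mono.monotone hj).trans he
        · exact lt_of_lt_of_le he' (p.mono.monotone hj')
        · intro v' hv'
          refine hu2 v' (fun e he he' => ?_)
          rw [hv' e he he', huv e he he']
      large := ⟨0, fun j _ => (hG j (S j) (hSL j)).2.1⟩ }
  refine ⟨q, ⟨0, fun i _ => ⟨⟨S i, rfl⟩, ?_⟩⟩, κ, ?_, ?_⟩
  · rintro z ⟨hz, -⟩ j hj hj'
    exact hz j (p.mono.le_iff_le.1 hj) (p.mono.le_iff_le.1 hj')
  · rintro z ⟨I, hI⟩
    exact ⟨I, fun n hn => (hI n hn).2 z (fun _ _ _ => rfl)⟩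
  · intro i
    exact ⟨i, fun n hn => (hG n (S n) (hSL n)).2.2 i hn⟩

end Pool.Agent.SCO
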