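import Pool.Agent.helper14.SCO.Spec

set_option autoImplicit false

namespace Pool.Agent.SCO

open Pool.Agent.Scheepers Cond

theorem LOW_seq (hL : LRG_stmt) (p : ℕ → Cond) (hp : ∀ n, (p (n + 1)).le (p n)) :
    ∃ q : Cond, ∀ n, q.le (p n) := by
  classical
  have hle : ∀ n m, n ≤ m → (p m).le (p n) := by
    intro n m hnm
    induction m, hnm using Nat.le_induction with
    | base => exact Cond.le_refl _
    | succ m _ ih => exact Cond.le_trans (hp m) ih
  -- thresholds
  have hthr : ∀ m n, ∃ M, n ≤ m → ∀ i, M ≤ (p m).a i →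
      (p m).a i ∈ Set.range (p n).a ∧ (p m).A i ⊆ (p n).R ((p m).a i) ((p m).a (i + 1)) := by
    intro m n
    by_cases h : n ≤ m
    · obtain ⟨M, hM⟩ := hle n m h
      exact ⟨M, fun _ => hM⟩
    · exact ⟨0, fun h' => absurd h' h⟩
  choose Th hTh using hthr
  have hlarge : ∀ m, ∃ J, ∀ j, J ≤ j → Lg ((p m).A j) ((p m).a j) ((p m).a (j + 1)) :=
    fun m => (p m).large
  choose La hLa using hlarge
  -- bound needed at stage `m`
  let Bd : ℕ → ℕ := fun m => max (La m) ((Finset.range (m + 1)).sup (Th m))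
  have hBd1 : ∀ m, La m ≤ Bd m := fun m => le_max_left _ _
  have hBd2 : ∀ m n, n ≤ m → Th m n ≤ Bd m := fun m n h =>
    (Finset.le_sup (f := Th m) (Finset.mem_range.2 (Nat.lt_succ_of_le h))).trans (le_max_right _ _)
  -- indices `s i` in `p i`
  let s : ℕ → ℕ := fun i => Nat.rec (Bd 0) (fun i si => (p i).a si + 1 + Bd (i + 1)) i
  let d : ℕ → ℕ := fun i => (p i).a (s i)
  have hs0 : s 0 = Bd 0 := rfl
  have hss : ∀ i, s (i + 1) = d i + 1 + Bd (i + 1) := fun i => rfl
  have hsB : ∀ i, Bd i ≤ s i := by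
    intro i
    cases i with
    | zero => exact le_of_eq hs0.symm
    | succ i => rw [hss]; omega
  have hdB : ∀ i, Bd i ≤ d i := fun i => (hsB i).trans ((p i).mono.id_le (s i))
  have hdlt : ∀ i, d i < d (i + 1) := by
    intro i
    have h1 : s (i + 1) ≤ d (i + 1) := (p (i + 1)).mono.id_le (s (i + 1))
    have h2 := hss i
    omega
  have hdmono : StrictMono d := strictMono_nat_of_lt_succ hdlt
  -- `d (i+1)` is a cut point of `p i`
  have hcut : ∀ i, ∃ s', d (i + 1) = (p i).a s' := by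
    intro i
    obtain ⟨⟨s', hs'⟩, -⟩ := hTh (i + 1) i (Nat.le_succ i) (s (i + 1))
      ((hBd2 (i + 1) i (Nat.le_succ i)).trans (hdB (i + 1)))
    exact ⟨s', hs'.symm⟩
  choose s' hs' using hcut
  have hss' : ∀ i, s i < s' i := by
    intro i
    have h1 := hdlt i
    rw [hs' i] at h1
    exact (p i).mono.lt_iff_lt.1 h1
  let q : Cond :=
    { a := d
      A := fun i => (p i).R (d i) (d (i + 1))
      mono := hdmono
      loc := fun i u v huv hu => (p i).R_loc _ _ u v huv hu
      large := ⟨0, fun i _ => by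
        have h1 : (p i).R (d i) (d (i + 1)) = (p i).R ((p i).a (s i)) ((p i).a (s' i)) := by
          rw [← hs' i]
        have h2 : Lg ((p i).R ((p i).a (s i)) ((p i).a (s' i))) ((p i).a (s i))
            ((p i).a (s' i)) :=
          hL (p i) (s i) (s' i) (hss' i) (fun j hj => hLa i j ((hBd1 i).trans ((hsB i).trans hj)))
        have h3 : d (i + 1) = (p i).a (s' i) := hs' i
        show Lg ((p i).R (d i) (d (i + 1))) (d i) (d (i + 1))
        rw [h1, h3]
        exact h2⟩ }
  refine ⟨q, fun n => ⟨d n, fun i hi => ?_⟩⟩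
  have hni : n ≤ i := hdmono.le_iff_le.1 hi
  have hTi : Th i n ≤ (p i).a (s i) := (hBd2 i n hni).trans (hdB i)
  have hM := hTh i n hni
  constructor
  · exact (hM (s i) hTi).1
  · show (p i).R (d i) (d (i + 1)) ⊆ (p n).R (d i) (d (i + 1))
    rw [hs' i]
    exact R_sub hM hTi

theorem LOW (h1 : LRG_stmt) : LOW_stmt := by
  classical
  intro ι _ _ p hp
  obtain ⟨g, hg⟩ := exists_surjective_nat ι
  -- running minimum
  let m : ℕ → ι := fun n => Nat.rec (g 0)
    (fun n i => if (p i).le (p (g (n + 1))) then i else g (n + 1)) n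
  have hm : ∀ n, m (n + 1) = if (p (m n)).le (p (g (n + 1))) then m n else g (n + 1) := fun n => rfl
  have h2 : ∀ n, (p (m (n + 1))).le (p (m n)) ∧ (p (m (n + 1))).le (p (g (n + 1))) := by
    intro n
    rw [hm]
    split_ifs with h
    · exact ⟨Cond.le_refl _, h⟩
    · exact ⟨(hp (m n) (g (n + 1))).resolve_left h, Cond.le_refl _⟩
  obtain ⟨q, hq⟩ := LOW_seq h1 (fun n => p (m n)) (fun n => (h2 n).1)
  refine ⟨q, fun i => ?_⟩
  obtain ⟨n, rfl⟩ := hg i
  cases n with
  | zero => exact hq 0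
  | succ n => exact Cond.le_trans (hq (n + 1)) (h2 n).2

end Pool.Agent.SCO
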