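import Pool.Agent.helper14.SCO.Spec

set_option autoImplicit false

namespace Pool.Agent.SCO

open Pool.Agent.Scheepers Cond

theorem LRG_mono {l r : ℕ} (h : l ≤ r) : Reg l ⊆ Reg r := fun _ ⟨e, he, hp⟩ => ⟨e, lt_of_lt_of_le he h, hp⟩

theorem LRG_true {t : Finset (ℕ × ℕ)} {e : ℕ} (h : pos e ∉ t) : dlt t e = true := by
  simp [dlt, h]

theorem LRG_ins {t : Finset (ℕ × ℕ)} {w : ℕ × ℕ} {e : ℕ} (h : pos e ≠ w) : dlt (insert w t) e = dlt t e := by
  simp [dlt, h]

theorem LRG : LRG_stmt := by
  classical
  intro p J J' hJJ' hL t ht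
  constructor
  · intro j hj hj'
    have hJj : J ≤ j := p.mono.le_iff_le.1 hj
    exact (hL j hJj t (ht.trans (LRG_mono hj))).1
  · intro w hw hwJ
    -- the block where `w` appears
    have hex : ∃ j, w ∈ Reg (p.a (j + 1)) := ⟨J', LRG_mono (p.mono.monotone (Nat.le_succ J')) hw⟩
    let j1 := Nat.find hex
    have hj1 : w ∈ Reg (p.a (j1 + 1)) := Nat.find_spec hex
    have hmin : ∀ m < j1, w ∉ Reg (p.a (m + 1)) := fun m hm => Nat.find_min hex hm
    have hJj1 : J ≤ j1 := by
      by_contra hlt
      push Not at hlt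
      exact hwJ (LRG_mono (p.mono.monotone hlt) hj1)
    have hj1' : w ∉ Reg (p.a j1) := by
      rcases hJj1.eq_or_lt with h | h
      · rw [← h]; exact hwJ
      · have := hmin (j1 - 1) (by omega)
        rwa [Nat.sub_add_cancel (by omega)] at this
    have hj1J' : j1 < J' := by
      by_contra hge
      push Not at hge
      exact hj1' (LRG_mono (p.mono.monotone hge) hw)
    obtain ⟨u1, hu1, hu2, hu3, hu4⟩ := (hL j1 hJj1 t (ht.trans (LRG_mono (p.mono.monotone hJj1)))).2 w hj1 hj1'
    have hlt1 : p.a j1 < p.a (j1 + 1) := p.mono (Nat.lt_succ_self j1)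
    let u : ℕ → Bool := fun e => if e < p.a j1 then dlt t e else if e < p.a (j1 + 1) then u1 e else dlt (insert w t) e
    have hua : ∀ e, e < p.a j1 → u e = dlt t e := fun e he => by simp [u, he]
    have hub : ∀ e, p.a j1 ≤ e → e < p.a (j1 + 1) → u e = u1 e := fun e he he' => by
      simp [u, not_lt.2 he, he']
    have huc : ∀ e, p.a (j1 + 1) ≤ e → u e = dlt (insert w t) e := fun e he => by
      have h2 : ¬ e < p.a j1 := by omega
      simp [u, not_lt.2 he, h2]
    have hins : ((insert w t : Finset (ℕ × ℕ)) : Set (ℕ × ℕ)) ⊆ Reg (p.a (j1 + 1)) := by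
      intro x hx
      rcases Finset.mem_insert.1 (Finset.mem_coe.1 hx) with h | h
      · rw [h]; exact hj1
      · exact LRG_mono (p.mono.monotone (hJj1.trans (Nat.le_succ j1))) (ht (Finset.mem_coe.2 h))
    refine ⟨u, ?_, ?_, ?_, ?_⟩
    · intro j hj hj'
      have hJj : J ≤ j := p.mono.le_iff_le.1 hj
      rcases lt_trichotomy j j1 with h | h | h
      · have h1 : p.a (j + 1) ≤ p.a j1 := p.mono.monotone h
        exact p.loc j (dlt t) u (fun e _ he' => (hua e (lt_of_lt_of_le he' h1)).symm)
          (hL j hJj t (ht.trans (LRG_mono hj))).1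
      · rw [h]
        exact p.loc j1 u1 u (fun e he he' => (hub e he he').symm) hu1
      · have h1 : p.a (j1 + 1) ≤ p.a j := p.mono.monotone h
        exact p.loc j (dlt (insert w t)) u (fun e he _ => (huc e (h1.trans he)).symm)
          (hL j hJj (insert w t) (hins.trans (LRG_mono h1))).1
    · intro e he he' hpos
      have hne : pos e ≠ w := fun h => hwJ (h ▸ hpos)
      by_cases h1 : e < p.a j1
      · exact hua e h1
      · push Not at h1
        by_cases h2 : e < p.a (j1 + 1)
        · rw [hub e h1 h2]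
          exact hu2 e h1 h2 (LRG_mono (p.mono.monotone hJj1) hpos)
        · push Not at h2
          rw [huc e h2, LRG_ins hne]
    · intro e he he' hpos
      by_cases h1 : e < p.a j1
      · exact absurd ⟨e, h1, hpos⟩ hj1'
      · push Not at h1
        by_cases h2 : e < p.a (j1 + 1)
        · rw [hub e h1 h2]
          exact hu3 e h1 h2 hpos
        · push Not at h2
          rw [huc e h2]
          simp [dlt, hpos]
    · intro w' hw' hw'J hne
      by_cases hnew : w' ∈ Reg (p.a (j1 + 1)) ∧ w' ∉ Reg (p.a j1)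
      · obtain ⟨e, he, he', hpos, hue⟩ := hu4 w' hnew.1 hnew.2 hne
        refine ⟨e, (p.mono.monotone hJj1).trans he, lt_of_lt_of_le he' (p.mono.monotone hj1J'), hpos, ?_⟩
        rw [hub e he he']
        exact hue
      · have hw't : w' ∉ t := fun h => hw'J (ht (Finset.mem_coe.2 h))
        -- some coordinate of `w'` in `[a J, a J')` outside block `j1`
        by_cases h1 : w' ∈ Reg (p.a j1)
        · obtain ⟨e, he, hpos⟩ := h1
          have hJe : p.a J ≤ e := by
            by_contra hlt
            push Not at hlt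
            exact hw'J ⟨e, hlt, hpos⟩
          refine ⟨e, hJe, lt_of_lt_of_le he (p.mono.monotone hj1J'.le), hpos, ?_⟩
          rw [hua e he]
          exact LRG_true (by rw [hpos]; exact hw't)
        · have h2 : w' ∉ Reg (p.a (j1 + 1)) := fun h => hnew ⟨h, h1⟩
          obtain ⟨e, he, hpos⟩ := hw'
          have h3 : p.a (j1 + 1) ≤ e := by
            by_contra hlt
            push Not at hlt
            exact h2 ⟨e, hlt, hpos⟩
          refine ⟨e, (p.mono.monotone (hJj1.trans (Nat.le_succ j1))).trans h3, he, hpos, ?_⟩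
          rw [huc e h3, LRG_ins (by rw [hpos]; exact hne)]
          exact LRG_true (by rw [hpos]; exact hw't)

end Pool.Agent.SCO
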