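import Pool.Agent.helper14.SCO.Spec

set_option autoImplicit false

namespace Pool.Agent.SCO

open Pool.Agent.Scheepers

theorem NON_lg (l r : ℕ) : Lg Set.univ l r := by
  intro t ht
  refine ⟨Set.mem_univ _, fun w hw hwl => ⟨fun e => decide (pos e ∉ t ∧ pos e ≠ w), Set.mem_univ _, ?_, ?_, ?_⟩⟩
  · intro e _ _ hpos
    have hne : pos e ≠ w := fun h => hwl (h ▸ hpos)
    simp [dlt, hne]
  · intro e _ _ hpos
    simp [hpos]
  · rintro w' ⟨e, he, hpos⟩ hw'l hne
    have hle : l ≤ e := by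
      by_contra hlt
      push Not at hlt
      exact hw'l ⟨e, hlt, hpos⟩
    refine ⟨e, hle, he, hpos, ?_⟩
    have hnt : pos e ∉ t := fun h => hw'l (by
      have := ht (Finset.mem_coe.2 h)
      rwa [hpos] at this)
    simp only [decide_eq_true_eq]
    exact ⟨hnt, by rw [hpos]; exact hne⟩

theorem NON : NON_stmt :=
  ⟨⟨fun j => j, fun _ => Set.univ, fun _ _ h => h, fun _ _ _ _ _ => Set.mem_univ _,
    ⟨0, fun j _ => NON_lg _ _⟩⟩⟩

end Pool.Agent.SCO
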