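import Pool.Agent.helper14.SCO.Spec

set_option autoImplicit false

namespace Pool.Agent.SCO

open Pool.Agent.Scheepers

theorem REC (h1 : NON_stmt) : REC_stmt := by
  classical
  intro ι r _ W h U hstep
  have wf : WellFounded r := IsWellFounded.wf
  obtain ⟨q⟩ := h1
  let body : (i : ι) → ((j : ι) → r j i → Sta) → Sta := fun i f =>
    if hf : His r i f then Classical.choose (hstep i f hf) else (fun _ => false, q, fun _ => 0)
  let G : ι → Sta := wf.fix body
  have hG : ∀ i, G i = body i (fun j _ => G j) := fun i => wf.fix_eq body i
  refine ⟨G, fun i => ?_⟩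
  induction i using wf.induction with
  | _ i ih =>
    have hh : His r i (fun j _ => G j) := by
      intro j hj j' hj' hjj'
      exact (ih j' hj').1 j hjj'
    rw [hG i]
    simp only [body, hh, dif_pos]
    exact Classical.choose_spec (hstep i _ hh)

end Pool.Agent.SCO
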