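import Pool.Agent.helper14.SCO.Spec

set_option autoImplicit false

namespace Pool.Agent.SCO

open Pool.Agent.Scheepers

theorem RFI : RFI_stmt := by
  intro l
  refine ((Set.finite_lt_nat l).image pos).subset ?_
  rintro w ⟨e, he, hw⟩
  exact ⟨e, he, hw⟩

end Pool.Agent.SCO
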