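import Pool.Agent.helper14.SCO.Defs

/-!
# Rows sco:* (MP_bfc607_gt)

THEOREM (CH).  There is a set `X` of irrationals such that `C_p(X)` satisfies `S_1(Gamma_0, Gamma_0)`, `X` satisfies
`S_1(Omega, Omega)`, and `X` fails `S_1(Gamma, Gamma)`.

The files `Pool/Agent/helper74/Sch*.lean` (namespace `Pool.Agent.Scheepers`: `pos`, `exists_pos_ge`, `F`, `P2`, `Supp`, `Code`, `dec`,
`supp_dec`, `exists_code`, `Kills`, `Ev`, `Sel`, `hurewicz`, `cp_select`, `exists_cantor_irrational`, `isClosed_F`, `exists_cyl`,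
`Supp.isOpen`, `Supp.isClosed`, `transfer`) may be used; our `Cond` is another structure than the one there (same fields, other
largeness), the file `Defs.lean` has `exists_block`, `block_unique`, `R_loc`, `R_sub`, `le_refl`, `le_trans`, `star_sub` for it.

RULES.  Every row is a `Prop` below; prove `theorem Pool.Agent.SCO.<ROW> (h1 : <OTHER>_stmt) ... : <ROW>_stmt` in
`Pool/Agent/<seat>/SCO/<ROW>.lean` (import this file; only the rows named in the docstring may be hypotheses, in this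
order), namespace `Pool.Agent.SCO`, `open Pool.Agent.Scheepers`.  Auxiliary lemmas: names beginning with the row name.
No `convert`/`congr!`/`native_decide`, no double quotes.

FACTS used everywhere: `dlt t e = false` iff `pos e ∈ t`; `Reg` is monotone; `pos e ∈ Reg (e + 1)`; if `p.a j ≤ e < p.a (j + 1)`
and `pos e ∉ Reg (p.a j)` then `pos e ∈ Reg (p.a (j + 1))` is new in the block `j`; `p.a j ≥ j` (`p.mono.id_le`).
-/

set_option autoImplicit false

namespace Pool.Agent.SCO

open Pool.Agent.Scheepers Cardinal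

/-- ROW sco:RFI (short).  `Reg l` is the image of `Finset.range l` under `pos`. -/
def RFI_stmt : Prop := ∀ l : ℕ, (Reg l).Finite

/-- ROW sco:DP2 (short).  If `z = dlt t` from `l` on and `z ∈ F (n, m)`, take `e ≥ l` with `pos e = (n, m)` (`exists_pos_ge`):
`z e = false`, so `(n, m) ∈ t`; `t` is finite. -/
def DP2_stmt : Prop := D ⊆ P2

/-- ROW sco:DCT (short, medium).  `D` is the union over the countably many `t` (Finset of a countable type) and `l` of the
finite sets `{z | ∀ e ≥ l, z e = dlt t e}` (injective image in `Fin l → Bool` by restriction). -/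
def DCT_stmt : Prop := D.Countable

/-- ROW sco:NON (short).  `a j = j`, `A j = Set.univ`: for `Pat` take `u e = decide (pos e ∉ t ∧ pos e ≠ w)`: new places `w' ≠ w` have
a coordinate in `[l, r)` (they are in `Reg r`, not in `Reg l`) and are not in `t ⊆ Reg l`; `w ∉ Reg l` so the old places are
not affected. -/
def NON_stmt : Prop := Nonempty Cond

/-- ROW sco:LRG (medium).  Products of large sets are large.  (1) `dlt t ∈ p.A j` for `J ≤ j < J'` as `t ⊆ Reg (p.a J) ⊆ Reg (p.a j)`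
(in `R` one has `p.a J ≤ p.a j` and `p.a (j + 1) ≤ p.a J'`, so `J ≤ j`).  (2) `w` is new in exactly one block `j1`
(`J ≤ j1 < J'`, `w ∈ Reg (p.a (j1 + 1))`, `w ∉ Reg (p.a j1)`; take the least such index), choose `u1 ∈ p.A j1` with
`Pat (p.a j1) (p.a (j1 + 1)) t w u1` (`t ⊆ Reg (p.a j1)`), and let `u = dlt t` below `p.a j1`, `u = u1` on block `j1`,
`u = dlt (insert w t)` from `p.a (j1 + 1)` on (`p.loc`: `u ∈ p.A j` for all `J ≤ j < J'`; `insert w t ⊆ Reg (p.a (j1 + 1))`).
`Pat (p.a J) (p.a J') t w u`: old places: clear (in block `j1` they are old for this block; later `w` is not old for `p.a J`);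
`w`: no coordinate below `p.a j1`, `false` on block `j1` and later; `w' ≠ w` new for `[p.a J, p.a J')`: if `w'` is new in
block `j1` use `Pat` of `u1`; otherwise `w'` is new in a block `j ≠ j1` and `u = true` on its first coordinate (`w' ∉ t`,
`w' ≠ w`). -/
def LRG_stmt : Prop := ∀ (p : Cond) (J J' : ℕ), J < J' → (∀ j, J ≤ j → Lg (p.A j) (p.a j) (p.a (j + 1))) →
  Lg (p.R (p.a J) (p.a J')) (p.a J) (p.a J')

/-- The hypotheses of the main lemma. -/
structure Hyp (p : Cond) (J : ℕ) (W : ℕ → Set (ℕ → Bool)) (b : ℕ → ℕ) (V : ℕ → Set (ℕ → Bool)) : Prop where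
  lg : ∀ j, J ≤ j → Lg (p.A j) (p.a j) (p.a (j + 1))
  sup : ∀ k, Supp (b k) (W k)
  nb : Nbhd V
  cv : ∀ z ∈ p.star, Gen V z → ∃ k0, ∀ k, k0 ≤ k → z ∉ W k

/-- ROW sco:KFD (medium; hyps `RFI_stmt DP2_stmt`).  For fixed `t ⊆ Reg (p.a J)` and `v` the point `z = cat (p.a J) v (dlt t)` is in
`D`, so in `P2` and in all `V i`, and in `p.star` (`dlt t ∈ p.A j` for `j ≥ J`, `p.loc`); so `z ∉ W k` for large `k`.  There are
finitely many `t` (subsets of a finite set) and `z` depends only on `t` and on the restriction of `v` to `e < p.a J`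
(replace `v` by `cat (p.a J) v (fun _ => false)`; finitely many functions `Fin (p.a J) → Bool`); take the maximum. -/
def KFD_stmt : Prop := ∀ (p : Cond) (J : ℕ) (W : ℕ → Set (ℕ → Bool)) (b : ℕ → ℕ) (V : ℕ → Set (ℕ → Bool)), Hyp p J W b V →
  ∃ K, ∀ k, K ≤ k → ∀ t : Finset (ℕ × ℕ), (t : Set (ℕ × ℕ)) ⊆ Reg (p.a J) → ∀ v : ℕ → Bool, cat (p.a J) v (dlt t) ∉ W k

/-- Failure of part (2) of `Lg` for the set `p.blk (W k) J l`. -/
def Bad (p : Cond) (W : ℕ → Set (ℕ → Bool)) (J : ℕ) (t : Finset (ℕ × ℕ)) (w : ℕ × ℕ) (k l : ℕ) : Prop :=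
  w ∈ Reg (p.a l) ∧ w ∉ Reg (p.a J) ∧ ∀ u ∈ p.blk (W k) J l, ¬ Pat (p.a J) (p.a l) t w u

/-- ROW sco:PHO (medium).  (pigeonhole) Suppose `z ∈ p.A j` for `j ≥ J`, and for infinitely many `i` the pattern `z` satisfies
`Pat (p.a J) (p.a (l i)) t (w i) z` although `Bad p W J t (w i) (k i) (l i)`, `k`, `l` strictly increasing, `b (k i) ≤ l i`.  Then
`z ∉ p.blk (W (k i)) J (l i)`, so some `v_i` agrees with `z` on `[p.a J, p.a (l i))` and lies in `W (k i)`; its support is below
`b (k i) ≤ l i ≤ p.a (l i)`, so `cat (p.a J) v_i z ∈ W (k i)`.  One of the finitely many restrictions `s` of `v_i` to `e < p.a J`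
occurs for infinitely many `i`: `y = cat (p.a J) s z` is in `p.star` and in infinitely many `W k`. -/
def PHO_stmt : Prop := ∀ (p : Cond) (J : ℕ) (W : ℕ → Set (ℕ → Bool)) (b : ℕ → ℕ), (∀ k, Supp (b k) (W k)) →
  ∀ (t : Finset (ℕ × ℕ)) (w : ℕ → ℕ × ℕ) (k l : ℕ → ℕ), StrictMono k → StrictMono l → (∀ i, b (k i) ≤ l i) →
  (∀ i, Bad p W J t (w i) (k i) (l i)) → ∀ z : ℕ → Bool, (∀ j, J ≤ j → z ∈ p.A j) →
  {i | Pat (p.a J) (p.a (l i)) t (w i) z}.Infinite →
  ∃ s : ℕ → Bool, cat (p.a J) s z ∈ p.star ∧ ∀ k0, ∃ k', k0 ≤ k' ∧ cat (p.a J) s z ∈ W k'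

/-- ROW sco:CSA (medium; hyps `DP2_stmt LRG_stmt PHO_stmt`).  Case A of the main lemma (constant `w`).  Let `m = l 0`, so
`w ∈ Reg (p.a m)`; `u ∈ p.R (p.a J) (p.a m)` with `Pat (p.a J) (p.a m) t w u` by LRG; `z = u` below `p.a m`, `z = dlt (insert w t)`
from `p.a m` on.  `z ∈ p.A j` for all `j ≥ J` (for `j < m`: `p.loc` and `u ∈ R`; for `j ≥ m`: `insert w t ⊆ Reg (p.a j)`).
`Pat (p.a J) (p.a (l i)) t w z` for all `i`: old places and `w`: clear; other new places: new for `[p.a J, p.a m)`: by `u`; new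
later: `true` on the first coordinate.  By PHO some `cat (p.a J) s z ∈ p.star` is in infinitely many `W k`; it is in `D`
(equal to `dlt (insert w t)` from `p.a m` on, `J < l 0 = m`), so `Gen V`: contradiction to `Hyp.cv`. -/
def CSA_stmt : Prop := ∀ (p : Cond) (J : ℕ) (W : ℕ → Set (ℕ → Bool)) (b : ℕ → ℕ) (V : ℕ → Set (ℕ → Bool)), Hyp p J W b V →
  ∀ (t : Finset (ℕ × ℕ)), (t : Set (ℕ × ℕ)) ⊆ Reg (p.a J) → ∀ (k l : ℕ → ℕ), StrictMono k → StrictMono l → (∀ i, b (k i) ≤ l i) →
  (∀ i, J < l i) → ∀ w : ℕ × ℕ, ¬ ∀ i, Bad p W J t w (k i) (l i)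

/-- ROW sco:SGM (medium; hyps `RFI_stmt LRG_stmt`).  One segment of case B.  Given `m ≥ J`, a pattern `y` (only `e < p.a m` matters)
and a neighbourhood `O` of `D`, and a place `w1` (to be closed): there is `m'` as required: for each `s` the point
`cat (p.a J) s (cat (p.a m) y (dlt t))` is in `D ⊆ O`, `exists_cyl` gives `b_s` such that all points agreeing with it below `b_s`
are in `O`; it depends only on `s` below `p.a J` (finitely many), let `m'` be larger than all `b_s`, than `m`, and such that `w1`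
has a coordinate in `[p.a m, p.a m')` (`exists_pos_ge`).  Then for every `l > m'` and every `w ∈ Reg (p.a l)`,
`w ∉ Reg (p.a m')`, LRG for `m', l` gives `u` with `Pat (p.a m') (p.a l) t w u`; `y' = y` below `p.a m`, `dlt t` on
`[p.a m, p.a m')`, `u` from `p.a m'` on.  (The last clause: all points `v` which agree with `y'` on `[p.a J, p.a l)` are in `O`:
with `s = v` they agree below `b_s ≤ p.a m'` with the point above.) -/
def SGM_stmt : Prop := ∀ (p : Cond) (J : ℕ), (∀ j, J ≤ j → Lg (p.A j) (p.a j) (p.a (j + 1))) →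
  ∀ (t : Finset (ℕ × ℕ)), (t : Set (ℕ × ℕ)) ⊆ Reg (p.a J) → ∀ (O : Set (ℕ → Bool)), IsOpen O → D ⊆ O →
  ∀ (m : ℕ) (y : ℕ → Bool) (w1 : ℕ × ℕ), J ≤ m → ∃ m', m < m' ∧ (∃ e, p.a m ≤ e ∧ e < p.a m' ∧ pos e = w1) ∧
    ∀ (l : ℕ) (w : ℕ × ℕ), m' < l → w ∈ Reg (p.a l) → w ∉ Reg (p.a m') →
      ∃ y' : ℕ → Bool, (∀ e, e < p.a m → y' e = y e) ∧ (∀ e, p.a m ≤ e → e < p.a m' → y' e = dlt t e) ∧
        Pat (p.a m') (p.a l) t w y' ∧ (∀ j, m ≤ j → j < l → y' ∈ p.A j) ∧
        ∀ v : ℕ → Bool, (∀ e, p.a J ≤ e → e < p.a l → v e = y' e) → v ∈ O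

/-- ROW sco:SEQ (medium; hyps `RFI_stmt SGM_stmt`).  The point of case B.  Recursion (dependent choice) on states `(m, y, w1)`,
`m ≥ J` with: `y ∈ p.A j` for `J ≤ j < m`; `y = dlt t` on the coordinates in `[p.a J, p.a m)` of places of `Reg (p.a J)`; every
`w' ∈ Reg (p.a m)`, `w' ∉ Reg (p.a J)`, `w' ≠ w1`, has a coordinate in `[p.a J, p.a m)` with `y = true`; `w1 ∉ t` (or no
`w1` yet: start with `m = J`, `y` arbitrary, `w1` any place not in `t`).  Step `r`: SGM with `O = V r`, `w1`: `m'`; choose `i` larger than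
the previous index with `l i > m'` and `w i ∉ Reg (p.a m')` (`hw`: `w i` leaves every `Reg`); `y'` from SGM with `l = l i`,
`w = w i`; new state `(l i, y', w i)`.  Check `Pat (p.a J) (p.a (l i)) t (w i) y'`: old places of `[p.a J, ..)`: `dlt t` on all parts
(in the last part they are old for `p.a m'`); `w i` has no coordinate below `p.a m'` and `false` after it; `w' ≠ w i` new: if
`w' ∈ Reg (p.a m)`, `w' ≠ w1`: by the state; `w' = w1`: `true` at its coordinate in `[p.a m, p.a m')` (`w1 ∉ t`); if `w'` is new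
in `[p.a m, p.a m')`: `true` at its coordinate there (`w' ∉ t ⊆ Reg (p.a J)`); if `w'` is new for `[p.a m', p.a (l i))`: by `Pat`.
Let `z` be the limit (`z e` = value at `e` of all later `y`; `y' = y` below `p.a m`).  Then `z ∈ p.A j` for `j ≥ J` (`p.loc`),
`Pat (p.a J) (p.a (l i)) t (w i) z` for the infinitely many chosen `i`, `cat (p.a J) s z ∈ V r` for all `s`, `r` (last clause of SGM with
`v = cat (p.a J) s z`), and every place `w'` with `w' ∉ Reg (p.a J)` has a coordinate `e ≥ p.a J` with `z e = true` (it is in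
`Reg (p.a (l i))` and `≠ w i` for a late chosen `i`, by `hw`); old places `w' ∉ t` have `z e = true` at all coordinates
`≥ p.a J`.  So the vanishing set of `cat (p.a J) s z` is inside `t`: `P2`. -/
def SEQ_stmt : Prop := ∀ (p : Cond) (J : ℕ), (∀ j, J ≤ j → Lg (p.A j) (p.a j) (p.a (j + 1))) →
  ∀ (V : ℕ → Set (ℕ → Bool)), Nbhd V → ∀ (t : Finset (ℕ × ℕ)), (t : Set (ℕ × ℕ)) ⊆ Reg (p.a J) →
  ∀ (l : ℕ → ℕ) (w : ℕ → ℕ × ℕ), StrictMono l → (∀ i, w i ∈ Reg (p.a (l i)) ∧ w i ∉ Reg (p.a J)) →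
  (∀ M, ∃ i0, ∀ i, i0 ≤ i → w i ∉ Reg M) →
  ∃ z : ℕ → Bool, (∀ j, J ≤ j → z ∈ p.A j) ∧ {i | Pat (p.a J) (p.a (l i)) t (w i) z}.Infinite ∧
    ∀ s : ℕ → Bool, Gen V (cat (p.a J) s z)

/-- ROW sco:MAI (medium; hyps `RFI_stmt KFD_stmt PHO_stmt CSA_stmt SEQ_stmt`).  THE MAIN LEMMA.  If not, choose inductively
`k_i` (increasing, `≥ K` of KFD) and `L_i` such that for all `l ≥ L_i` with `l > J` the set `p.blk (W k_i) J l` is not large, and
`l_i ≥ L_i` increasing with `l_i > J`, `l_i ≥ b k_i`.  Part (1) of `Lg` holds: `dlt t ∈ p.A j` and a `v` agreeing with `dlt t` on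
`[p.a J, p.a l_i)` is in `W k_i` iff `cat (p.a J) v (dlt t)` is (support below `b k_i ≤ l_i ≤ p.a l_i`), which is excluded by KFD.
So part (2) fails: `Bad p W J t_i w_i k_i l_i` with `t_i ⊆ Reg (p.a J)`.  Pass to a subsequence with constant `t_i` (finitely many subsets of
a finite set).  If for some `M` infinitely many `w_i` are in the finite set `Reg M`, pass to a subsequence with constant
`w_i`: CSA.  Otherwise SEQ gives `z`, PHO an `s` with `cat (p.a J) s z ∈ p.star` in infinitely many `W k`: contradiction to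
`Hyp.cv`. -/
def MAI_stmt : Prop := ∀ (p : Cond) (J : ℕ) (W : ℕ → Set (ℕ → Bool)) (b : ℕ → ℕ) (V : ℕ → Set (ℕ → Bool)), Hyp p J W b V →
  ∃ k0, ∀ k, k0 ≤ k → ∀ l0, ∃ l, l0 ≤ l ∧ J < l ∧ Lg (p.blk (W k) J l) (p.a J) (p.a l)

/-- ROW sco:FUS (medium; hyp `MAI_stmt`).  As `Cond.fusion` in `SchOrder.lean`: `S 0 = J0` (large from there on), at stage `i`
MAI with `J = S i`, `W i` gives `κ i = k` (also larger than the thresholds of `c 0, ..., c i` for `W i`) and `S (i + 1) = l > S i`
with `p.blk (W i (κ i)) (S i) (S (i + 1))` large; `q.a i = p.a (S i)`, `q.A i` = this set. -/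
def FUS_stmt : Prop := ∀ (p : Cond) (W : ℕ → ℕ → Set (ℕ → Bool)) (b : ℕ → ℕ → ℕ), (∀ n k, Supp (b n k) (W n k)) →
  ∀ (V : ℕ → Set (ℕ → Bool)), Nbhd V →
  (∀ n, ∀ z ∈ p.star, Gen V z → ∃ k0, ∀ k, k0 ≤ k → z ∉ W n k) →
  ∀ (c : ℕ → (ℕ → Bool)), (∀ i n, ∃ k0, ∀ k, k0 ≤ k → c i ∉ W n k) →
  ∃ q : Cond, q.le p ∧ ∃ κ : ℕ → ℕ, (∀ z ∈ q.star, ∃ n0, ∀ n, n0 ≤ n → z ∉ W n (κ n)) ∧
    ∀ i, ∃ n0, ∀ n, n0 ≤ n → c i ∉ W n (κ n)

/-- ROW sco:LOW (medium; hyp `LRG_stmt`).  Lower bounds of countable chains: adapt `Cond.exists_lower` and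
`Cond.exists_lower_chain` of `SchOrder.lean` (only the field `large` of the new condition changes: use LRG instead of
`large_R`, `La m` = index from which on `(p m).A j` is `Lg`; `q.large` holds with `J = 0`). -/
def LOW_stmt : Prop := ∀ (ι : Type) [Countable ι] [Nonempty ι] (p : ι → Cond), (∀ i j, (p i).le (p j) ∨ (p j).le (p i)) →
  ∃ q : Cond, ∀ i, q.le (p i)

/-- ROW sco:XPT (medium, long; hyps `RFI_stmt LRG_stmt`).  Points.  `J` with all later blocks large.  States `(m, t, y)`, `m ≥ J`,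
`t ⊆ Reg (p.a m)`, no place of `t` in `Reg (p.a J)`, `y ∈ p.A j` for `J ≤ j < m`, `y = false` on all coordinates `< p.a m` of places
of `t`, every place of `Reg (p.a m)` outside `Reg (p.a J)` and outside `t` has a coordinate in `[p.a J, p.a m)` with `y = true`.
Start: `(J, ∅, true)`.  Step `r`: the point `cat (p.a m) y (dlt t)` is in `D ⊆ V r`: choose `m' > m` with all points agreeing with it below
`p.a m'` in `V r` (`exists_cyl`), then `n` larger than all first coordinates used before with `w = (n, h n) ∉ Reg (p.a m')`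
(`Reg` finite), `l > m'` with `w ∈ Reg (p.a l)` (`exists_pos_ge`); `u ∈ p.R (p.a m') (p.a l)` with `Pat (p.a m') (p.a l) t w u` by LRG;
new state `(l, insert w t, y')`, `y' = y` below `p.a m`, `dlt t` on `[p.a m, p.a m')`, `u` from `p.a m'` on.  The limit `z` is in
`p.star`, in all `V r`; `z ∈ F w` for all chosen `w` (new at `m'`: `false` on `[p.a m', p.a l)` and, being in `t` later, on all later
parts), and `z` vanishes on no other place (a place of `Reg (p.a J)` gets value `true` at all its coordinates `≥ p.a J`; a place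
outside `Reg (p.a J)` by the last clause of the state): `P2`, as the chosen `n` are different. -/
def XPT_stmt : Prop := ∀ (p : Cond) (h : ℕ → ℕ) (V : ℕ → Set (ℕ → Bool)), Nbhd V →
  ∃ z ∈ p.star, Gen V z ∧ {n | z ∈ F (n, h n)}.Infinite

/-- ROW sco:OPC (short, medium).  An open set is the union of the sets `dec c` it contains (`exists_cyl`, `exists_code` for
cylinders); `Code` is countable; if `V` is empty take `c j = ⟨0, ∅⟩`. -/
def OPC_stmt : Prop := ∀ V : Set (ℕ → Bool), IsOpen V → ∃ c : ℕ → Code, opn c = V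

/-- ROW sco:TCD (short).  As `mk_task` in `SchRec.lean`. -/
def TCD_stmt : Prop := #Tsk ≤ 𝔠

/-- ROW sco:STP (medium, long; hyps `DCT_stmt NON_stmt FUS_stmt LOW_stmt XPT_stmt`).  The step, cf. `step_exists` in `SchRec.lean`.
`q0` = lower bound of the conditions before `i` (LOW; NON if there are none).  The points `Old` are countably many (`D` and
`(G j hj).1`); let `V` enumerate `univ` and all sets `Vst (U j) (G j hj).2.2 A` which contain `D`, for `j` before `i` and finite
`A` of `Old` points (countable index; these sets are open: union over `n` of `U j n (f n)`): `Nbhd V`.  `C` = points of `q0.star` which are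
`Gen V`.  (i) Some `y ∈ C` with `Kills (W i) y`: `s.1 = y`, `s.2.1 = q0`, first alternative.  (ii) Otherwise `x ∈ C` from XPT with
`h i`.  If some `Kno` point kills `W i`: `s.1 = x`, `s.2.1 = q0`, first alternative.  Otherwise FUS with `p = q0`, `c` an enumeration of
the `Kno` points (nonempty, countable), gives `q`, `κ`: `s.1 = x`, `s.2.1 = q`, second alternative.  `s.2.2`: if for all `n` and
all finite sets `A` of `Kno` points some `m` exists, enumerate these finite sets as `A_n` (countable, `∅` is one) and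
choose `s.2.2 n` with `A_n` inside `U i n (s.2.2 n)`; otherwise anything. -/
def STP_stmt : Prop := ∀ (ι : Type) (r : ι → ι → Prop) [IsWellOrder ι r] (W : ι → ℕ → ℕ → Set (ℕ → Bool)) (h : ι → ℕ → ℕ)
  (U : ι → ℕ → ℕ → Set (ℕ → Bool)) (b : ι → ℕ → ℕ → ℕ), (∀ i n k, Supp (b i n k) (W i n k)) → (∀ i n m, IsOpen (U i n m)) →
  ∀ (i : ι), Countable {j // r j i} → ∀ G : (j : ι) → r j i → Sta, His r i G → ∃ s, Stp r W h U i G s

/-- ROW sco:REC (short; hyp `NON_stmt`).  As `rec_exists` in `SchRec.lean`. -/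
def REC_stmt : Prop := ∀ (ι : Type) (r : ι → ι → Prop) [IsWellOrder ι r] (W : ι → ℕ → ℕ → Set (ℕ → Bool)) (h : ι → ℕ → ℕ)
  (U : ι → ℕ → ℕ → Set (ℕ → Bool)), (∀ i (G : (j : ι) → r j i → Sta), His r i G → ∃ s, Stp r W h U i G s) →
  ∃ G : ι → Sta, ∀ i, Stp r W h U i (fun j _ => G j) (G i)

/-- ROW sco:OMG (medium).  Let `f = (G i).2.2`.  Call a point late if it is not `Kno` at stage `i`, i.e. not in `D` and not
`(G j).1` with `r j i` or `j = i`.  Claim: every finite `A` of points of `D ∪ {(G j).1}` lies in some `U i n (f n)`, by induction on the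
number of late elements of `A`.  None: last clause of `Stp` at `i` (its premise follows from the hypothesis on `U i`).
Otherwise let `g` be the largest index (for `r`) among chosen least indices of the late elements: for a late `a` let `ix a` be the
`r`-least `j` with `a = (G j).1` (then `r i (ix a)`), and let `g = ix a0` be the largest; `B = A.erase a0`.  Every `a ∈ B` is
`Old` at stage `g` (late elements have `ix a ≠ g`, so `r (ix a) g`; the others are in `D` or of stage `≤ i`, `r i g`).  For `d ∈ D`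
the set `insert d B` has fewer late elements, so it lies in some `U i n (f n)`: `D ⊆ Vst (U i) f B`.  The fourth clause of `Stp` at `g`
(with `j = i`) gives `a0 = (G g).1 ∈ Vst (U i) f B`. -/
def OMG_stmt : Prop := ∀ (ι : Type) (r : ι → ι → Prop) [IsWellOrder ι r] (W : ι → ℕ → ℕ → Set (ℕ → Bool)) (h : ι → ℕ → ℕ)
  (U : ι → ℕ → ℕ → Set (ℕ → Bool)) (G : ι → Sta), (∀ i, Stp r W h U i (fun j _ => G j) (G i)) → ∀ i : ι,
  (∀ n, ∀ A : Finset (ℕ → Bool), (∀ a ∈ A, a ∈ D ∨ ∃ j, a = (G j).1) → ∃ m, ∀ a ∈ A, a ∈ U i n m) →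
  ∀ A : Finset (ℕ → Bool), (∀ a ∈ A, a ∈ D ∨ ∃ j, a = (G j).1) → ∃ n, ∀ a ∈ A, a ∈ U i n ((G i).2.2 n)

/-- ROW sco:SET (medium; hyps `DP2_stmt TCD_stmt OPC_stmt STP_stmt REC_stmt OMG_stmt`).  As `exists_set` in `SchRec.lean`: `r` a well-order of
`Tsk` of type `ord #Tsk` (`Cardinal.exists_ord_eq`), initial segments are countable by `hCH` (see `countable_of_lt` in
`Results/MP_bfc607_gt/SelectionUnderCH.lean`, copy it).  `W i n k = dec (i.1 n k)`, `h i = i.2.1`, `U i n m = opn (i.2.2 n m)` (open: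
`supp_dec`, `Supp.isOpen`).  `X = D ∪ {(G i).1}`.  `unb`: task with `W` empty (`⟨0, ∅⟩`): nothing kills it, so second
alternative.  `sel`: task coding `W` (`exists_code`); no point of `X` kills it; for `x = (G j).1` with `r j i` or `j = i`, or
`x ∈ D`: `Kno`; with `r i j`: `x ∈ (G i).2.1.star`.  `omg`: task coding `U` (OPC), OMG. -/
def SET_stmt : Prop := Cardinal.continuum.{0} = Cardinal.aleph.{0} 1 → ∃ X : Set (ℕ → Bool), Fin1 X

/-- ROW sco:LIN (short, medium).  Countable subfamilies.  `B` a countable basis; for every finite subset `S` of `B` whose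
union lies in some `U ∈ 𝒰` choose such a `U_S` (otherwise any fixed element of `𝒰`, which is nonempty: take `F = ∅`);
enumerate the finite subsets of `B`.  If `F ⊆ U ∈ 𝒰`, each point of `F` is in a basic set inside `U`; with `S` = these basic
sets, `F ⊆ ⋃ S ⊆ U_S`. -/
def LIN_stmt : Prop := ∀ (Z : Type) [TopologicalSpace Z] [SecondCountableTopology Z] (𝒰 : Set (Set Z)), (∀ U ∈ 𝒰, IsOpen U) →
  (∀ F : Finset Z, ∃ U ∈ 𝒰, (F : Set Z) ⊆ U) → ∃ u : ℕ → Set Z, (∀ m, u m ∈ 𝒰) ∧ ∀ F : Finset Z, ∃ m, (F : Set Z) ⊆ u m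

/-- ROW sco:TRF (medium; hyp `LIN_stmt`).  As `transfer` in `SchTop.lean`: `Y = f '' X`, `φ : Y → (ℕ → Bool)` inducing, surjective onto `X`,
injective, `cp_select`.  `S_1(Omega, Omega)`: for `𝒰 n` take `u n m` from LIN (`Z = Y`), open sets `O n m` of `ℕ → Bool` with
`φ ⁻¹' O n m = u n m` (`IsInducing.isOpen_iff`), `Fin1.omg` for `O` (finite sets of `X` are images of finite sets of `Y`):
`f`; `V n = u n (f n)`.  Gamma part: `U n m = {y | φ y ∉ F (n, m)}`, `𝒰 n = Set.range (U n)`: each `y` is outside finitely many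
(`sub`), `U n m ≠ univ` and the sets `U n m` are pairwise different (the point `d` which is `false` exactly on the coordinates
of `(n, m)` is in `D ⊆ X`, in `F (n, m)` and in no other `F w`), infinitely many.  A selection is `V n = U n (h n)`; `x` from
`Fin1.unb h`, `y` with `φ y = x`: `y ∉ V n` for infinitely many `n`, and `n ↦ V n` is injective. -/
def TRF_stmt : Prop := ∀ X : Set (ℕ → Bool), Fin1 X → ∃ Y : Set ℝ, Fin2 Y

end Pool.Agent.SCO
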