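import Pool.Agent.helper14.SCO.DP2
import Pool.Agent.helper14.SCO.FUS
import Pool.Agent.helper14.SCO.LOW
import Pool.Agent.helper14.SCO.LRG
import Pool.Agent.helper14.SCO.NON
import Pool.Agent.helper14.SCO.REC
import Pool.Agent.helper16.SCO.LIN
import Pool.Agent.helper16.SCO.TRF
import Pool.Agent.helper2.SCO.MAI
import Pool.Agent.helper21.SCO.XPT
import Pool.Agent.helper25.SCO.DCT
import Pool.Agent.helper25.SCO.TCD
import Pool.Agent.helper31.SCO.SET
import Pool.Agent.helper46.SCO.KFD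
import Pool.Agent.helper46.SCO.OPC
import Pool.Agent.helper48.SCO.CSA
import Pool.Agent.helper57.SCO.STP
import Pool.Agent.helper75.SCO.SEQ
import Pool.Agent.helper77.SCO.PHO
import Pool.Agent.helper83.SCO.SGM
import Pool.Agent.helper90.SCO.OMG
import Pool.Agent.helper14.SCO.RFI

/-!
# Assembly of the rows sco:*
-/

set_option autoImplicit false

namespace Pool.Agent.SCO

theorem top (hCH : Cardinal.continuum.{0} = Cardinal.aleph.{0} 1) : ∃ Y : Set ℝ, Fin2 Y := by
  have hLRG : LRG_stmt := LRG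
  have hRFI : RFI_stmt := RFI
  have hDP2 : DP2_stmt := DP2
  have hPHO : PHO_stmt := PHO
  have hKFD : KFD_stmt := KFD hRFI hDP2
  have hCSA : CSA_stmt := CSA hDP2 hLRG hPHO
  have hSGM : SGM_stmt := SGM hRFI hLRG
  have hSEQ : SEQ_stmt := SEQ hRFI hSGM
  have hMAI : MAI_stmt := MAI hRFI hKFD hPHO hCSA hSEQ
  have hFUS : FUS_stmt := FUS hMAI
  have hLOW : LOW_stmt := LOW hLRG
  have hXPT : XPT_stmt := XPT hRFI hLRG
  have hSTP : STP_stmt := STP DCT NON hFUS hLOW hXPT
  have hREC : REC_stmt := REC NON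
  have hSET : SET_stmt := SET hDP2 TCD OPC hSTP hREC OMG
  have hTRF : TRF_stmt := TRF LIN
  obtain ⟨X, hX⟩ := hSET hCH
  exact hTRF X hX

end Pool.Agent.SCO
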